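import Mathlib
import Pool.Agent.H21.CMO2

set_option autoImplicit false
open Filter Topology Finset Complex

namespace Pool.Agent.Results.MP_a187e6_nt.OmegaOneOverX

lemma term_pow (f : ℕ → ℂ) (s : ℝ) {p : ℕ} (hp : p.Prime) (k : ℕ) :
    LSeries.term f s (p ^ k) = f (p ^ k) * ((((p : ℝ) ^ (-s)) ^ k : ℝ) : ℂ) := by
  rw [LSeries.term_of_ne_zero (pow_ne_zero k hp.ne_zero), ← Real.rpow_natCast,
    ← Real.rpow_mul (Nat.cast_nonneg _), mul_comm (-s), Real.rpow_mul (Nat.cast_nonneg _),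
    Real.rpow_natCast, ← Nat.cast_pow, ofReal_cpow (Nat.cast_nonneg _), ofReal_natCast, ofReal_neg,
    cpow_neg, div_eq_mul_inv]

/-- For every MO function and every `c < 1/2`, `|S_f(N)| ≥ c / N` for infinitely many `N`. -/
theorem result :
    ∀ f : ℕ → ℂ,
      f 1 = 1 →
      (∀ m n : ℕ, 0 < m → 0 < n → Nat.Coprime m n → f (m * n) = f m * f n) →
      Tendsto (fun N : ℕ => ∑ n ∈ Finset.Icc 1 N, f n) atTop (𝓝 0) →
      (∀ p : ℕ, p.Prime → ∃ v : ℂ, v ≠ 0 ∧
        Tendsto (fun K : ℕ => ∑ k ∈ Finset.range K, f (p ^ k)) atTop (𝓝 v)) →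
      ∀ c : ℝ, c < 1 / 2 → ∀ M : ℕ, ∃ N : ℕ, M ≤ N ∧ 0 < N ∧
        c / (N : ℝ) ≤ ‖∑ n ∈ Finset.Icc 1 N, f n‖ := by
  classical
  intro f h1 h2 _ h4 c hc M
  by_contra h
  push Not at h
  set S : ℕ → ℂ := fun N => ∑ n ∈ Icc 1 N, f n with hS
  have c0 : 0 < c := by
    have := (norm_nonneg _).trans_lt (h (M + 1) (by omega) (by omega))
    exact (div_pos_iff_of_pos_right (by positivity)).1 this
  set κ : ℝ := c + 1 / 2 with hκ
  set κ' : ℝ := (κ + 1) / 2 with hκ'
  have k0 : 0 < κ := by linarith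
  have k1 : κ < κ' := by linarith
  have k2 : κ' < 1 := by linarith
  -- eventual bound on `n ‖f n‖`
  have hev : ∀ᶠ n : ℕ in atTop, ‖f n‖ ≤ κ / n := by
    have t1 : Tendsto (fun m : ℕ => c + (c + c / (m : ℝ))) atTop (𝓝 (c + (c + 0))) :=
      ((tendsto_const_div_atTop_nhds_zero_nat c).const_add c).const_add c
    obtain ⟨m0, hm0⟩ := eventually_atTop.1 (t1.eventually (ge_mem_nhds (show c + (c + 0) < κ by linarith)))
    filter_upwards [eventually_ge_atTop (M + m0 + 2)] with n hn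
    obtain ⟨m, rfl⟩ : ∃ m, n = m + 1 := ⟨n - 1, by omega⟩
    have m0 : (0 : ℝ) < m := by exact_mod_cast (by omega : 0 < m)
    have b1 := h (m + 1) (by omega) (by omega)
    have b2 := h m (by omega) (by omega)
    rw [Finset.sum_Icc_succ_top (by omega)] at b1
    have := norm_sub_le (∑ n ∈ Finset.Icc 1 m, f n + f (m + 1)) (∑ n ∈ Finset.Icc 1 m, f n)
    rw [add_sub_cancel_left] at this
    have b3 := hm0 m (by omega)
    have e : c / ((m + 1 : ℕ) : ℝ) + c / m = (c + (c + c / m)) / ((m + 1 : ℕ) : ℝ) := by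
      push_cast; field_simp
    have : (c + (c + c / m)) / ((m + 1 : ℕ) : ℝ) ≤ κ / ((m + 1 : ℕ) : ℝ) := by gcongr
    linarith
  obtain ⟨n0, hn0⟩ := eventually_atTop.1 hev
  obtain ⟨B, hB0, hB⟩ : ∃ B : ℝ, 0 < B ∧ ∀ n : ℕ, 0 < n → ‖f n‖ ≤ B / n := by
    refine ⟨κ + ∑ n ∈ range n0, n * ‖f n‖, by positivity, fun n hn => ?_⟩
    have n0' : (0 : ℝ) < n := by exact_mod_cast hn
    have hs : 0 ≤ ∑ n ∈ range n0, (n : ℝ) * ‖f n‖ := by positivity
    by_cases h' : n0 ≤ n
    · refine (hn0 n h').trans ?_; gcongr; linarith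
    · have := single_le_sum (f := fun n : ℕ => (n : ℝ) * ‖f n‖) (fun _ _ => by positivity)
        (mem_range.2 (not_le.1 h'))
      rw [le_div_iff₀ n0']; linarith
  -- upper bound for the Dirichlet series
  obtain ⟨C, hC⟩ : ∃ C : ℝ, ∀ᶠ s : ℝ in 𝓝[>] 0, LSeriesSummable f s ∧ ‖LSeries f s‖ ≤ C * s := by
    set g : ℕ → ℂ := fun n => if n = 0 then 0 else ((B⁻¹ : ℝ) : ℂ) * f n with hg
    have hg1 : ∀ n : ℕ, ‖g n‖ ≤ 1 / (n : ℝ) := by
      intro n
      rcases Nat.eq_zero_or_pos n with rfl | hn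
      · simp [hg]
      · simp only [hg, if_neg hn.ne', norm_mul, Complex.norm_real]
        rw [Real.norm_of_nonneg (by positivity), inv_mul_le_iff₀ hB0, mul_one_div]
        exact hB n hn
    have hg2 : ∀ N, ∑ n ∈ Icc 1 N, g n = ((B⁻¹ : ℝ) : ℂ) * S N := fun N => by
      rw [hS, mul_sum]
      exact sum_congr rfl fun n hn => if_neg (by have := (mem_Icc.1 hn).1; omega)
    have hg3 : Tendsto (fun N : ℕ => √(N : ℝ) * ‖∑ n ∈ Icc 1 N, g n‖) atTop (𝓝 0) := by
      have t1 : Tendsto (fun N : ℕ => B⁻¹ * c * (√(N : ℝ))⁻¹) atTop (𝓝 (B⁻¹ * c * 0)) :=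
        ((Real.tendsto_sqrt_atTop.comp tendsto_natCast_atTop_atTop).inv_tendsto_atTop).const_mul _
      rw [mul_zero] at t1
      refine squeeze_zero' (Eventually.of_forall fun _ => by positivity) ?_ t1
      filter_upwards [eventually_ge_atTop (M + 1)] with N hN
      have N0 : (0 : ℝ) < N := by exact_mod_cast (by omega : 0 < N)
      have q0 : 0 < √(N : ℝ) := Real.sqrt_pos.2 N0
      rw [hg2, norm_mul, Complex.norm_real, Real.norm_of_nonneg (by positivity)]
      calc √(N : ℝ) * (B⁻¹ * ‖S N‖) ≤ √(N : ℝ) * (B⁻¹ * (c / N)) := by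
            gcongr; exact (h N (by omega) (by omega)).le
        _ = B⁻¹ * c * (√(N : ℝ))⁻¹ := by
            nth_rewrite 2 [← Real.mul_self_sqrt N0.le]; field_simp
    obtain ⟨J, hJd, hJ, -⟩ := H21.CMO.mellin_pack g hg1 hg3
    have hJc : ContinuousAt J ((0 : ℝ) : ℂ) := (hJd.differentiableAt
      ((isOpen_lt continuous_const continuous_re).mem_nhds (by simp; norm_num))).continuousAt
    have hJt : Tendsto (fun s : ℝ => ‖J s‖) (𝓝[>] 0) (𝓝 ‖J ((0 : ℝ) : ℂ)‖) :=
      ((hJc.tendsto.comp (continuous_ofReal.tendsto 0)).norm).mono_left nhdsWithin_le_nhds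
    refine ⟨B * (‖J ((0 : ℝ) : ℂ)‖ + 1), ?_⟩
    filter_upwards [hJt.eventually (ge_mem_nhds (lt_add_one _)), self_mem_nhdsWithin] with s hs s0
    have s0' : (0 : ℝ) < s := s0
    obtain ⟨a1, a2⟩ := hJ s (by simpa using s0')
    have e : LSeries.term f s = (B : ℂ) • LSeries.term g s := by
      funext n
      by_cases hn : n = 0
      · simp [hn]
      · have : (B : ℂ) ≠ 0 := by exact_mod_cast hB0.ne'
        simp only [Pi.smul_apply, LSeries.term_of_ne_zero hn, hg, if_neg hn, smul_eq_mul]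
        push_cast; field_simp
    have a3 : LSeriesHasSum f s ((B : ℂ) * LSeries g s) := by
      unfold LSeriesHasSum; rw [e]; exact a1.LSeriesHasSum.const_smul (B : ℂ)
    refine ⟨a3.LSeriesSummable, ?_⟩
    rw [a3.LSeries_eq, a2, norm_mul, norm_mul, Complex.norm_real, Complex.norm_real,
      Real.norm_of_nonneg hB0.le, Real.norm_of_nonneg s0'.le]
    calc B * (s * ‖J s‖) ≤ B * (s * (‖J ((0 : ℝ) : ℂ)‖ + 1)) := by gcongr
      _ = _ := by ring
  -- local factors
  choose! v hv0 hv using h4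
  set L : ℕ → ℝ → ℂ := fun p s => ∑' k, LSeries.term f s (p ^ k) with hL
  have hgeo : ∀ p : ℕ, p.Prime → Summable fun k : ℕ => B * ((p : ℝ)⁻¹) ^ k := fun p hp =>
    (summable_geometric_of_lt_one (by positivity)
      (inv_lt_one_of_one_lt₀ (by exact_mod_cast hp.one_lt))).mul_left B
  have hfb : ∀ p : ℕ, p.Prime → ∀ k, ‖f (p ^ k)‖ ≤ B * ((p : ℝ)⁻¹) ^ k := fun p hp k => by
    have := hB (p ^ k) (pow_pos hp.pos k)
    rwa [Nat.cast_pow, div_eq_mul_inv, ← inv_pow] at this
  have hsmall : ∀ p : ℕ, p.Prime → ∀ᶠ s : ℝ in 𝓝[>] 0, ‖v p‖ / 2 ≤ ‖L p s‖ := by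
    intro p hp
    have p1 : (1 : ℝ) ≤ p := by exact_mod_cast hp.one_lt.le
    have t1 : Tendsto (L p) (𝓝[>] 0) (𝓝 (∑' k, f (p ^ k))) := by
      refine tendsto_tsum_of_dominated_convergence (hgeo p hp) (fun k => ?_) ?_
      · simp only [term_pow f _ hp]
        have : Continuous fun s : ℝ => f (p ^ k) * ((((p : ℝ) ^ (-s)) ^ k : ℝ) : ℂ) :=
          continuous_const.mul (continuous_ofReal.comp
            (((Real.continuous_const_rpow (by linarith)).comp continuous_neg).pow k))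
        simpa using (this.tendsto 0).mono_left nhdsWithin_le_nhds
      · filter_upwards [self_mem_nhdsWithin] with s s0 k
        have s0' : (0 : ℝ) < s := s0
        rw [term_pow f _ hp, norm_mul, Complex.norm_real, Real.norm_of_nonneg (by positivity)]
        have : ((p : ℝ) ^ (-s)) ^ k ≤ 1 :=
          pow_le_one₀ (by positivity) (Real.rpow_le_one_of_one_le_of_nonpos p1 (by linarith))
        nlinarith [hfb p hp k, norm_nonneg (f (p ^ k))]
    have e : ∑' k, f (p ^ k) = v p :=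
      tendsto_nhds_unique (Summable.of_norm_bounded (hgeo p hp) (hfb p hp)).hasSum.tendsto_sum_nat
        (hv p hp)
    rw [e] at t1
    exact t1.norm.eventually (le_mem_nhds (half_lt_self (norm_pos_iff.2 (hv0 p hp))))
  obtain ⟨P1, hP1⟩ := eventually_atTop.1
    ((tendsto_one_div_atTop_nhds_zero_nat (𝕜 := ℝ)).eventually
      (ge_mem_nhds (show (0 : ℝ) < 1 - κ / κ' by rw [sub_pos, div_lt_one (by linarith)]; exact k1)))
  set P := n0 + P1 with hP
  have hlarge : ∀ p : ℕ, p.Prime → P ≤ p → ∀ s : ℝ, 0 < s → LSeriesSummable f s →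
      (1 - (p : ℝ) ^ (-(1 + s))) ^ κ' ≤ ‖L p s‖ := by
    intro p hp hPp s s0 hs
    have p1 : (1 : ℝ) < p := by exact_mod_cast hp.one_lt
    set x : ℝ := (p : ℝ) ^ (-(1 + s)) with hx
    have x0 : 0 < x := by positivity
    have x1 : x ≤ 1 - κ / κ' := by
      refine le_trans ?_ (hP1 p (by omega))
      rw [one_div, ← Real.rpow_neg_one]
      exact Real.rpow_le_rpow_of_exponent_le p1.le (by linarith)
    have k3 : 0 < κ / κ' := div_pos k0 (by linarith)
    have x2 : x < 1 := by linarith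
    have hs1 : Summable fun k => LSeries.term f s (p ^ k) :=
      hs.comp_injective (Nat.pow_right_injective hp.one_lt)
    have hb : ∀ k, ‖LSeries.term f s (p ^ (k + 1))‖ ≤ κ * x * x ^ k := by
      intro k
      rw [term_pow f _ hp, norm_mul, Complex.norm_real, Real.norm_of_nonneg (by positivity)]
      have a1 := hn0 (p ^ (k + 1)) (le_trans (by omega) (Nat.le_self_pow (by omega) p))
      have e : κ * x * x ^ k = κ / ((p ^ (k + 1) : ℕ) : ℝ) * ((p : ℝ) ^ (-s)) ^ (k + 1) := by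
        rw [hx, neg_add, Real.rpow_add (by linarith), Real.rpow_neg_one, Nat.cast_pow,
          div_eq_mul_inv, ← inv_pow]
        ring
      rw [e]; gcongr
    have hb2 := tsum_of_norm_bounded ((hasSum_geometric_of_lt_one x0.le x2).mul_left (κ * x)) hb
    have e : L p s = 1 + ∑' k, LSeries.term f s (p ^ (k + 1)) := by
      simp only [hL]
      rw [hs1.tsum_eq_zero_add]; simp [h1]
    have a2 : 1 - ‖∑' k, LSeries.term f s (p ^ (k + 1))‖ ≤ ‖L p s‖ := by
      have := norm_sub_norm_le (1 : ℂ) (-∑' k, LSeries.term f s (p ^ (k + 1)))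
      rwa [norm_one, norm_neg, sub_neg_eq_add, ← e] at this
    have a3 := rpow_one_add_le_one_add_mul_self (s := -x) (by linarith) (p := κ') (by linarith) k2.le
    have a4 : κ * x * (1 - x)⁻¹ ≤ κ' * x := by
      rw [← div_eq_mul_inv, div_le_iff₀ (by linarith)]
      have : κ ≤ κ' * (1 - x) := by
        have : κ / κ' ≤ 1 - x := by linarith
        rw [div_le_iff₀ (by linarith)] at this; linarith
      nlinarith
    rw [sub_eq_add_neg]
    linarith
  set w : ℕ → ℝ := fun p => if p.Prime ∧ p < P then min 1 (‖v p‖ / 2) else 1 with hw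
  have w0 : ∀ p, 0 < w p := fun p => by
    simp only [hw]; split_ifs with h'
    · exact lt_min one_pos (half_pos (norm_pos_iff.2 (hv0 p h'.1)))
    · exact one_pos
  have w1 : ∀ p, w p ≤ 1 := fun p => by
    simp only [hw]; split_ifs
    · exact min_le_left _ _
    · exact le_rfl
  set W := ∏ p ∈ range P, w p with hW
  have W0 : 0 < W := prod_pos fun p _ => w0 p
  have hWN : ∀ N : ℕ, W ≤ ∏ p ∈ N.primesBelow, w p := by
    intro N
    rw [← prod_filter_mul_prod_filter_not N.primesBelow (· < P),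
      prod_eq_one (s := N.primesBelow.filter fun p => ¬ p < P)
        (fun p hp => by simp only [hw]; rw [if_neg fun h' => (mem_filter.1 hp).2 h'.2]), mul_one]
    exact prod_le_prod_of_subset_of_le_one (fun p hp => mem_range.2 (mem_filter.1 hp).2)
      (fun p _ => (w0 p).le) fun p _ _ => w1 p
  have hsm : ∀ᶠ s : ℝ in 𝓝[>] 0, ∀ p ∈ range P, p.Prime → ‖v p‖ / 2 ≤ ‖L p s‖ := by
    refine (eventually_all_finset _).2 fun p _ => ?_
    by_cases hp : p.Prime
    · exact (hsmall p hp).mono fun s hs _ => hs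
    · exact Eventually.of_forall fun s h' => absurd h' hp
  have t1 : Tendsto (fun s : ℝ => ‖(((1 + s : ℝ) : ℂ) - 1) * riemannZeta ((1 + s : ℝ) : ℂ)‖)
      (𝓝[>] 0) (𝓝 ‖(1 : ℂ)‖) := by
    refine Tendsto.norm (riemannZeta_residue_one.comp ?_)
    refine tendsto_nhdsWithin_iff.2 ⟨?_, ?_⟩
    · have : Continuous fun δ : ℝ => ((1 + δ : ℝ) : ℂ) := by fun_prop
      simpa using (this.tendsto 0).mono_left nhdsWithin_le_nhds
    · filter_upwards [self_mem_nhdsWithin] with δ hδ
      have : (0 : ℝ) < δ := hδ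
      intro e
      have : (1 + δ : ℝ) = 1 := by exact_mod_cast Set.mem_singleton_iff.1 e
      linarith
  have t2 : Tendsto (fun s : ℝ => C * s ^ (1 - κ') *
      ‖(((1 + s : ℝ) : ℂ) - 1) * riemannZeta ((1 + s : ℝ) : ℂ)‖ ^ κ') (𝓝[>] 0)
      (𝓝 (C * (0 : ℝ) ^ (1 - κ') * ‖(1 : ℂ)‖ ^ κ')) :=
    ((((Real.continuousAt_rpow_const 0 (1 - κ') (Or.inr (by linarith))).tendsto.mono_left
      nhdsWithin_le_nhds).const_mul C).mul (t1.rpow_const (Or.inr (by linarith))))
  rw [Real.zero_rpow (by linarith), mul_zero, zero_mul] at t2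
  refine absurd (ge_of_tendsto t2 ?_) (not_le.2 W0)
  filter_upwards [hC, hsm, self_mem_nhdsWithin] with s hs1 hs2 s0
  have s0' : (0 : ℝ) < s := s0
  have E1 := EulerProduct.eulerProduct (f := LSeries.term f s) (by simp [h1])
    (fun {m n} hmn => by
      rcases Nat.eq_zero_or_pos m with rfl | hm
      · simp
      rcases Nat.eq_zero_or_pos n with rfl | hn
      · simp
      rw [LSeries.term_of_ne_zero (by positivity), LSeries.term_of_ne_zero hm.ne',
        LSeries.term_of_ne_zero hn.ne', h2 m n hm hn hmn, Nat.cast_mul, natCast_mul_natCast_cpow,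
        mul_div_mul_comm]) hs1.1.norm (by simp)
  have E2 := riemannZeta_eulerProduct (s := ((1 + s : ℝ) : ℂ)) (by simp; linarith)
  have E3 := E1.norm.mul (E2.norm.rpow_const (p := κ') (Or.inr (by linarith)))
  have E4 : W ≤ ‖LSeries f s‖ * ‖riemannZeta ((1 + s : ℝ) : ℂ)‖ ^ κ' := by
    refine ge_of_tendsto' E3 fun N => (hWN N).trans ?_
    rw [norm_prod, norm_prod, ← Real.finsetProd_rpow _ _ (fun _ _ => norm_nonneg _),
      ← prod_mul_distrib]
    refine prod_le_prod (fun p _ => (w0 p).le) fun p hp => ?_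
    have hp' := Nat.prime_of_mem_primesBelow hp
    have p1 : (1 : ℝ) < p := by exact_mod_cast hp'.one_lt
    set x : ℝ := (p : ℝ) ^ (-(1 + s)) with hx
    have x0 : 0 < x := by positivity
    have x2 : x < 1 := Real.rpow_lt_one_of_one_lt_of_neg p1 (by linarith)
    have e : ‖(1 - (p : ℂ) ^ (-((1 + s : ℝ) : ℂ)))⁻¹‖ = (1 - x)⁻¹ := by
      rw [← ofReal_natCast, ← ofReal_neg, ← ofReal_cpow (Nat.cast_nonneg _), ← ofReal_one,
        ← ofReal_sub, norm_inv, Complex.norm_real, Real.norm_of_nonneg (by linarith)]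
    have y0 : 0 < (1 - x) ^ κ' := Real.rpow_pos_of_pos (by linarith) _
    have y1 : (1 - x) ^ κ' ≤ 1 := Real.rpow_le_one (by linarith) (by linarith) (by linarith)
    rw [e, Real.inv_rpow (by linarith), ← div_eq_mul_inv, le_div_iff₀ y0]
    by_cases hPp : p < P
    · have a1 := hs2 p (mem_range.2 hPp) hp'
      have a2 : w p ≤ ‖v p‖ / 2 := by simp only [hw]; rw [if_pos ⟨hp', hPp⟩]; exact min_le_right _ _
      have := w0 p
      show _ ≤ ‖L p s‖
      nlinarith
    · have a1 := hlarge p hp' (not_lt.1 hPp) s s0' hs1.1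
      have := w1 p
      show _ ≤ ‖L p s‖
      nlinarith
  have e2 : ‖((1 + s : ℝ) : ℂ) - 1‖ = s := by
    rw [← ofReal_one, ← ofReal_sub, Complex.norm_real, Real.norm_of_nonneg (by linarith)]; ring
  rw [norm_mul, e2, Real.mul_rpow s0'.le (norm_nonneg _)]
  have e3 : s ^ (1 - κ') * s ^ κ' = s := by rw [← Real.rpow_add s0']; simp
  calc W ≤ C * s * ‖riemannZeta ((1 + s : ℝ) : ℂ)‖ ^ κ' := E4.trans (by gcongr; exact hs1.2)
    _ = C * (s ^ (1 - κ') * s ^ κ') * ‖riemannZeta ((1 + s : ℝ) : ℂ)‖ ^ κ' := by rw [e3]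
    _ = _ := by ring

end Pool.Agent.Results.MP_a187e6_nt.OmegaOneOverX
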